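import Mathlib

/-!
# The Cayley coordinates of the isometry group of an alternating form
-/

set_option autoImplicit false

open Matrix

namespace Pool.Agent.R739.HA

variable {n : ℕ}

/-- the indices of the coordinates -/
abbrev Sy (n : ℕ) : Type := {p : Fin n × Fin n // p.1 ≤ p.2}

/-- symmetric matrices -/
def Ym {R : Type*} (y : Sy n → R) : Matrix (Fin n) (Fin n) R :=
  Matrix.of fun i j => if h : i ≤ j then y ⟨(i, j), h⟩ else y ⟨(j, i), (not_le.1 h).le⟩

theorem Ym_symm {R : Type*} (y : Sy n → R) : (Ym y).transpose = Ym y := by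
  ext i j
  rw [Matrix.transpose_apply]
  unfold Ym
  rw [Matrix.of_apply, Matrix.of_apply]
  rcases lt_trichotomy i j with h | h | h
  · rw [dif_neg (not_le.2 h), dif_pos h.le]
  · subst h; rfl
  · rw [dif_pos h.le, dif_neg (not_le.2 h)]

theorem Ym_coord {R : Type*} (y : Sy n → R) (p : Sy n) : Ym y p.1.1 p.1.2 = y p := by
  unfold Ym
  rw [Matrix.of_apply, dif_pos p.2]

theorem Ym_map {R L : Type*} (φ : R → L) (y : Sy n → R) : (Ym y).map φ = Ym (fun p => φ (y p)) := by
  ext i j
  unfold Ym
  rw [Matrix.map_apply, Matrix.of_apply, Matrix.of_apply]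
  split_ifs <;> rfl

section ring

variable {R : Type*} [CommRing R] {L : Type*} [CommRing L]

/-- the numerators of the coordinates -/
noncomputable def cn (J G : Matrix (Fin n) (Fin n) R) (p : Sy n) : R := (J * (G - 1) * (G + 1).adjugate) p.1.1 p.1.2

/-- the denominator of the coordinates -/
noncomputable def cd (G : Matrix (Fin n) (Fin n) R) : R := (G + 1).det

/-- the determinant of `1 - Ji Y` -/
noncomputable def De (Ji : Matrix (Fin n) (Fin n) R) (y : Sy n → R) : R := (1 - Ji * Ym y).det

theorem one_map (φ : R →+* L) : (1 : Matrix (Fin n) (Fin n) R).map φ = 1 := Matrix.map_one _ (map_zero _) (map_one _)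

theorem cn_map (φ : R →+* L) (J G : Matrix (Fin n) (Fin n) R) (p : Sy n) : φ (cn J G p) = cn (J.map φ) (G.map φ) p := by
  unfold cn
  have h := RingHom.map_adjugate φ (G + 1)
  rw [RingHom.mapMatrix_apply, RingHom.mapMatrix_apply, Matrix.map_add _ (map_add φ), one_map] at h
  have h2 : (G - 1).map φ = G.map φ - 1 := by rw [Matrix.map_sub _ (map_sub φ), one_map]
  rw [← h2, ← h, ← Matrix.map_mul, ← Matrix.map_mul, Matrix.map_apply]

theorem cd_map (φ : R →+* L) (G : Matrix (Fin n) (Fin n) R) : φ (cd G) = cd (G.map φ) := by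
  unfold cd
  rw [RingHom.map_det, RingHom.mapMatrix_apply, Matrix.map_add _ (map_add φ), one_map]

theorem De_map (φ : R →+* L) (Ji : Matrix (Fin n) (Fin n) R) (y : Sy n → R) :
    φ (De Ji y) = De (Ji.map φ) (fun p => φ (y p)) := by
  unfold De
  rw [RingHom.map_det, RingHom.mapMatrix_apply, Matrix.map_sub _ (map_sub φ), one_map, Matrix.map_mul, Ym_map]

/-- the product which clears the denominators of a monomial in the coordinates -/
noncomputable def Mo (J G : Matrix (Fin n) (Fin n) R) (E : ℕ) (s : Sy n → ℕ) : R := ∏ p, (cn J G p ^ s p * cd G ^ (E - s p))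

theorem Mo_map (φ : R →+* L) (J G : Matrix (Fin n) (Fin n) R) (E : ℕ) (s : Sy n → ℕ) :
    φ (Mo J G E s) = Mo (J.map φ) (G.map φ) E s := by
  unfold Mo
  rw [map_prod]
  refine Finset.prod_congr rfl fun p _ => ?_
  rw [map_mul, map_pow, map_pow, cn_map, cd_map]

/-- with coordinates `y` -/
theorem Mo_eq {J G : Matrix (Fin n) (Fin n) R} {y : Sy n → R} (hy : ∀ p, cn J G p = cd G * y p) {E : ℕ} {s : Sy n → ℕ}
    (hs : ∀ p, s p ≤ E) : Mo J G E s = cd G ^ (E * Fintype.card (Sy n)) * ∏ p, y p ^ s p := by
  unfold Mo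
  have h1 : cd G ^ (E * Fintype.card (Sy n)) = ∏ _p : Sy n, cd G ^ E := by
    rw [Finset.prod_const, Finset.card_univ, ← pow_mul]
  rw [h1, ← Finset.prod_mul_distrib]
  refine Finset.prod_congr rfl fun p _ => ?_
  rw [hy, mul_pow, mul_right_comm, ← pow_add, Nat.add_sub_cancel' (hs p)]

end ring

section field

variable {K : Type*} [Field K]

/-- the Cayley transform: an isometry with given coordinates -/
theorem exists_cayley (h2 : (2 : K) ≠ 0) {J Ji : Matrix (Fin n) (Fin n) K} (hJ : J.transpose = -J) (hJi : J * Ji = 1)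
    (y : Sy n → K) (hD : De Ji y ≠ 0) :
    ∃ g : Matrix (Fin n) (Fin n) K, g.transpose * J * g = J ∧ cd g ≠ 0 ∧ ∀ p, cn J g p = cd g * y p := by
  set B := Ji * Ym y with hB
  have hJB : J * B = Ym y := by rw [hB, ← Matrix.mul_assoc, hJi, one_mul]
  have hBJ : B.transpose * J = -Ym y := by
    have h1 := congrArg Matrix.transpose hJB
    rw [Matrix.transpose_mul, Ym_symm, hJ, mul_neg] at h1
    rw [← h1, neg_neg]
  have hu : IsUnit (1 - B).det := isUnit_iff_ne_zero.2 hD
  have hl := nonsing_inv_mul (1 - B) hu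
  have hr := mul_nonsing_inv (1 - B) hu
  set U := (1 - B)⁻¹ with hU
  set g := U * (1 + B) with hg
  have h1 : (1 - B) * g = 1 + B := by rw [hg, ← Matrix.mul_assoc, hr, one_mul]
  have h1' : g * (1 - B) = 1 + B := by
    have h3 : (1 + B) * (1 - B) = (1 - B) * (1 + B) := by noncomm_ring
    rw [hg, Matrix.mul_assoc, h3, ← Matrix.mul_assoc, hl, one_mul]
  clear_value g
  -- the form
  have hform : g.transpose * J * g = J := by
    have e1 : (1 + B).transpose * J * (1 + B) = (1 - B).transpose * J * (1 - B) := by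
      rw [Matrix.transpose_add, Matrix.transpose_sub, Matrix.transpose_one]
      have e2 : (1 + B.transpose) * J * (1 + B) = J + J * B + B.transpose * J + B.transpose * J * B := by noncomm_ring
      have e3 : (1 - B.transpose) * J * (1 - B) = J - J * B - B.transpose * J + B.transpose * J * B := by noncomm_ring
      rw [e2, e3, hJB, hBJ]
      abel
    have e5 : (1 + B).transpose * J * (1 + B) = (g * (1 - B)).transpose * J * (g * (1 - B)) := by rw [h1']
    have e4 : (1 - B).transpose * (g.transpose * J * g) * (1 - B) = (1 - B).transpose * J * (1 - B) := by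
      rw [← e1, e5, Matrix.transpose_mul]
      simp only [Matrix.mul_assoc]
    have hlT : U.transpose * (1 - B).transpose = 1 := by rw [← Matrix.transpose_mul, hr, Matrix.transpose_one]
    calc g.transpose * J * g = (U.transpose * (1 - B).transpose) * (g.transpose * J * g) * ((1 - B) * U) := by
          rw [hlT, hr, one_mul, mul_one]
      _ = U.transpose * ((1 - B).transpose * (g.transpose * J * g) * (1 - B)) * U := by simp only [Matrix.mul_assoc]
      _ = (U.transpose * (1 - B).transpose) * J * ((1 - B) * U) := by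
          rw [e4]
          simp only [Matrix.mul_assoc]
      _ = J := by rw [hlT, hr, one_mul, mul_one]
  have h3 : (1 - B) * (g + 1) = (2 : K) • (1 : Matrix (Fin n) (Fin n) K) := by
    rw [Matrix.mul_add, h1, mul_one, two_smul]; abel
  have h4 : (g - 1) * (1 - B) = (2 : K) • B := by
    rw [Matrix.sub_mul, h1', one_mul, two_smul]; abel
  have hd : cd g ≠ 0 := by
    intro h0
    have h5 := congrArg Matrix.det h3
    rw [Matrix.det_mul, Matrix.det_smul, Matrix.det_one, mul_one] at h5
    unfold cd at h0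
    rw [h0, mul_zero] at h5
    exact pow_ne_zero _ h2 h5.symm
  refine ⟨g, hform, hd, fun p => ?_⟩
  -- adj (g + 1) = cd g / 2 * (1 - B)
  have h5 : (g + 1) * (1 - B) = (2 : K) • (1 : Matrix (Fin n) (Fin n) K) := by
    rw [Matrix.add_mul, h1', one_mul, two_smul]; abel
  have h6 : (2 : K) • (g + 1).adjugate = cd g • (1 - B) := by
    calc (2 : K) • (g + 1).adjugate = (g + 1).adjugate * ((2 : K) • (1 : Matrix (Fin n) (Fin n) K)) := by
          rw [Matrix.mul_smul, mul_one]
      _ = (g + 1).adjugate * (g + 1) * (1 - B) := by rw [← h5, Matrix.mul_assoc]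
      _ = _ := by
          rw [adjugate_mul, Matrix.smul_mul, one_mul]
          rfl
  have h7 : (2 : K) • (J * (g - 1) * (g + 1).adjugate) = (2 : K) • (cd g • Ym y) := by
    calc (2 : K) • (J * (g - 1) * (g + 1).adjugate) = J * (g - 1) * ((2 : K) • (g + 1).adjugate) := by
          rw [Matrix.mul_smul]
      _ = cd g • (J * ((g - 1) * (1 - B))) := by
          rw [h6, Matrix.mul_smul, Matrix.mul_assoc]
      _ = (2 : K) • (cd g • Ym y) := by
          rw [h4, Matrix.mul_smul, hJB, smul_comm]
  have h8 : J * (g - 1) * (g + 1).adjugate = cd g • Ym y := smul_right_injective _ h2 h7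
  unfold cn
  rw [h8, Matrix.smul_apply, smul_eq_mul, Ym_coord]

/-- independence of the coordinates on the group -/
theorem indep_group [Infinite K] (h2 : (2 : K) ≠ 0) {J Ji : Matrix (Fin n) (Fin n) K} (hJ : J.transpose = -J) (hJi : J * Ji = 1)
    (P : MvPolynomial (Sy n) K)
    (hP : ∀ (g : Matrix (Fin n) (Fin n) K) (y : Sy n → K), g.transpose * J * g = J → cd g ≠ 0 → (∀ p, cn J g p = cd g * y p) →
      MvPolynomial.eval y P = 0) : P = 0 := by
  set Q : MvPolynomial (Sy n) K := De (Ji.map (MvPolynomial.C : K → MvPolynomial (Sy n) K)) MvPolynomial.X with hQ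
  have hQe : ∀ y : Sy n → K, MvPolynomial.eval y Q = De Ji y := by
    intro y
    rw [hQ, De_map]
    congr 1
    · ext i j
      simp
    · funext p
      exact MvPolynomial.eval_X _
  have hQ0 : Q ≠ 0 := by
    intro h0
    have h1 := hQe 0
    rw [h0, map_zero] at h1
    have h3 : Ym (0 : Sy n → K) = 0 := by
      ext i j
      unfold Ym
      rw [Matrix.of_apply, Matrix.zero_apply]
      split_ifs <;> rfl
    unfold De at h1
    rw [h3, mul_zero, sub_zero, Matrix.det_one] at h1
    exact zero_ne_one h1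
  have hPQ : P * Q = 0 := by
    refine MvPolynomial.funext fun y => ?_
    rw [map_mul, map_zero, hQe]
    by_cases hy : De Ji y = 0
    · rw [hy, mul_zero]
    · obtain ⟨g, hg, hd, hc⟩ := exists_cayley h2 hJ hJi y hy
      rw [hP g y hg hd hc, zero_mul]
  exact (mul_eq_zero.1 hPQ).resolve_right hQ0

end field

end Pool.Agent.R739.HA
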