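import Pool.Agent.Y119.HY.Fin2
import Pool.Agent.R739.HA.Cay

/-!
# The number of independent entries of the holomorphic part of the hypergeometric system
-/

set_option autoImplicit false

open PowerSeries Pool.Agent.Y113

namespace Pool.Agent.R739.HA

open Pool.Agent.Y119.HZ
open Pool.Agent.Y119.HY (QD Am Jm cm E Hf Hc Yf E_isom E_mul_neg)

variable {n : ℕ} {Q : Polynomial ℚ}

/-- the isometries are the products of the value of the holomorphic part and an isometry -/
theorem exists_kappa (hQ : QD n Q) {t : ℕ} (ht : 2 ≤ t) {g : Matrix (Fin n) (Fin n) ℂ}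
    (hg : g.transpose * cm (Jm n Q) * g = cm (Jm n Q)) :
    ∃ κ : Matrix (Fin n) (Fin n) ℂ, κ.transpose * cm (Jm n Q) * κ = cm (Jm n Q) ∧
      Hf (Hc n Q) (((1 / (t : ℝ) : ℝ)) : ℂ) * κ = g := by
  have hN : (cm (Am n)) ^ n = 0 := Pool.Agent.Y119.HY.Ac_nil
  have hNJ : (cm (Am n)).transpose * cm (Jm n Q) + cm (Jm n Q) * cm (Am n) = 0 := Pool.Agent.Y119.HY.Jc_rel
  set H := Hf (Hc n Q) (((1 / (t : ℝ) : ℝ)) : ℂ) with hH
  have h1 : Yt n Q t * E (cm (Am n)) ((Real.log t : ℝ) : ℂ) = H := by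
    have h2 := E_mul_neg hN (-((Real.log t : ℝ) : ℂ))
    rw [neg_neg] at h2
    unfold Yt
    rw [Matrix.mul_assoc, h2, mul_one]
  have hHJ : H.transpose * cm (Jm n Q) * H = cm (Jm n Q) := by
    rw [← h1]
    exact isom_mul (Yt_form hQ ht) (E_isom hN hNJ _)
  obtain ⟨W, hW1, -, hW3⟩ := isom_inv (Pool.Agent.Y119.HY.Jc_det hQ) hHJ
  refine ⟨W * g, isom_mul hW3 hg, ?_⟩
  rw [← Matrix.mul_assoc, hW1, one_mul]

/-- the relations hold on the whole group -/
theorem rel_group (hQ : QD n Q) {R : MvPolynomial (Fin (n * n)) (Polynomial ℚ)} (hR : MvPolynomial.aeval (hf n Q) R = 0)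
    {t : ℕ} (ht : 2 ≤ t) {g : Matrix (Fin n) (Fin n) ℂ} (hg : g.transpose * cm (Jm n Q) * g = cm (Jm n Q)) :
    MvPolynomial.eval₂ (evq (((1 / (t : ℝ) : ℝ)) : ℂ)) (fun j => g (ix n j).1 (ix n j).2) R = 0 := by
  obtain ⟨κ, hκ, rfl⟩ := exists_kappa hQ ht hg
  have h2 : (2 : ℝ) ≤ t := by exact_mod_cast ht
  exact rel_inv hQ hR (x := 1 / (t : ℝ)) (by positivity) (by rw [div_lt_one (by linarith)]; linarith) hκ

/-- the generic matrix -/
noncomputable def GX (n : ℕ) : Matrix (Fin n) (Fin n) (MvPolynomial (Fin (n * n)) (Polynomial ℚ)) :=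
  Matrix.of fun i j => MvPolynomial.X ((ix n).symm (i, j))

/-- the form over the polynomial ring -/
noncomputable def JX (n : ℕ) (Q : Polynomial ℚ) : Matrix (Fin n) (Fin n) (MvPolynomial (Fin (n * n)) (Polynomial ℚ)) :=
  Matrix.of fun i j => MvPolynomial.C (Polynomial.C (Jm n Q i j))

/-- the denominator -/
noncomputable def dH (n : ℕ) (Q : Polynomial ℚ) : ℚ⟦X⟧ := cd (Hp n Q)

theorem dH_ne : constantCoeff (dH n Q) ≠ 0 := by
  unfold dH
  rw [cd_map]
  have h1 : (Hp n Q).map (constantCoeff : ℚ⟦X⟧ →+* ℚ) = 1 := by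
    ext i j
    have h2 := congrFun (congrFun (cf_Hp (n := n) (Q := Q) 0) i) j
    rw [Pool.Agent.Y119.HY.Hq_zero] at h2
    rw [← h2, Matrix.map_apply]
    exact (coeff_zero_eq_constantCoeff_apply _).symm
  rw [h1]
  unfold cd
  have h2 : (1 + 1 : Matrix (Fin n) (Fin n) ℚ) = (2 : ℚ) • 1 := by rw [two_smul]
  rw [h2, Matrix.det_smul, Matrix.det_one, mul_one]
  positivity

/-- the Cayley coordinates of the holomorphic part -/
noncomputable def yH (n : ℕ) (Q : Polynomial ℚ) (p : Sy n) : ℚ⟦X⟧ := (dH n Q)⁻¹ * cn (km (Jm n Q)) (Hp n Q) p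

theorem yH_eq (p : Sy n) : cn (km (Jm n Q)) (Hp n Q) p = cd (Hp n Q) * yH n Q p := by
  unfold yH
  have h1 : dH n Q * (dH n Q)⁻¹ = 1 := PowerSeries.mul_inv_cancel _ dH_ne
  have h2 : cd (Hp n Q) = dH n Q := rfl
  rw [h2, ← mul_assoc, h1, one_mul]

/-- the homogenisation of a polynomial in the coordinates -/
noncomputable def Rh (n : ℕ) (Q : Polynomial ℚ) (P : MvPolynomial (Sy n) (Polynomial ℚ)) :
    MvPolynomial (Fin (n * n)) (Polynomial ℚ) :=
  ∑ s ∈ P.support, MvPolynomial.C (P.coeff s) * Mo (JX n Q) (GX n) P.totalDegree s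

theorem Rh_eval {S : Type*} [CommRing S] (φ : MvPolynomial (Fin (n * n)) (Polynomial ℚ) →+* S)
    (P : MvPolynomial (Sy n) (Polynomial ℚ)) {y : Sy n → S}
    (hy : ∀ p, cn ((JX n Q).map φ) ((GX n).map φ) p = cd ((GX n).map φ) * y p) :
    φ (Rh n Q P) = cd ((GX n).map φ) ^ (P.totalDegree * Fintype.card (Sy n)) *
      MvPolynomial.eval₂ (φ.comp MvPolynomial.C) y P := by
  unfold Rh
  rw [map_sum, MvPolynomial.eval₂_eq', Finset.mul_sum]
  refine Finset.sum_congr rfl fun s hs => ?_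
  have h1 : ∀ p, s p ≤ P.totalDegree := by
    intro p
    have h2 := MvPolynomial.le_totalDegree hs
    rw [Finsupp.sum_fintype _ _ (fun _ => rfl)] at h2
    exact (Finset.single_le_sum (f := fun p => s p) (fun _ _ => Nat.zero_le _) (Finset.mem_univ p)).trans h2
  rw [map_mul, Mo_map, Mo_eq hy h1]
  show φ (MvPolynomial.C (P.coeff s)) * _ = _ * (φ (MvPolynomial.C (P.coeff s)) * _)
  ring

/-- **the Cayley coordinates of the holomorphic part are independent over the polynomials** -/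
theorem yH_indep (hQ : QD n Q) : AlgebraicIndependent (Polynomial ℚ) (yH n Q) := by
  rw [algebraicIndependent_iff]
  intro P hP
  -- the relation
  have hR : MvPolynomial.aeval (hf n Q) (Rh n Q P) = 0 := by
    have hG : (GX n).map ((MvPolynomial.aeval (hf n Q)).toRingHom : MvPolynomial (Fin (n * n)) (Polynomial ℚ) →+* ℚ⟦X⟧) =
        Hp n Q := by
      ext1 i j
      show MvPolynomial.aeval (hf n Q) (MvPolynomial.X ((ix n).symm (i, j))) = _
      rw [MvPolynomial.aeval_X]
      unfold hf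
      rw [Equiv.apply_symm_apply]
    have hJ : (JX n Q).map ((MvPolynomial.aeval (hf n Q)).toRingHom : MvPolynomial (Fin (n * n)) (Polynomial ℚ) →+* ℚ⟦X⟧) =
        km (Jm n Q) := by
      ext1 i j
      show MvPolynomial.aeval (hf n Q) (MvPolynomial.C (Polynomial.C (Jm n Q i j))) = C (Jm n Q i j)
      rw [MvPolynomial.aeval_C, PowerSeries.algebraMap_apply']
      simp
    have h1 := Rh_eval (Q := Q) ((MvPolynomial.aeval (hf n Q)).toRingHom : MvPolynomial (Fin (n * n)) (Polynomial ℚ) →+* ℚ⟦X⟧)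
      P (y := yH n Q) (fun p => by rw [hG, hJ]; exact yH_eq p)
    have h2 : MvPolynomial.eval₂ (((MvPolynomial.aeval (hf n Q)).toRingHom :
        MvPolynomial (Fin (n * n)) (Polynomial ℚ) →+* ℚ⟦X⟧).comp MvPolynomial.C) (yH n Q) P =
        MvPolynomial.aeval (yH n Q) P := by
      rw [MvPolynomial.aeval_def]
      congr 1
      refine RingHom.ext fun p => ?_
      show MvPolynomial.aeval (hf n Q) (MvPolynomial.C p) = _
      rw [MvPolynomial.aeval_C]
    rw [h2, hP, mul_zero] at h1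
    exact h1
  -- on the group
  have hz : ∀ t : ℕ, 2 ≤ t → MvPolynomial.map (evq (((1 / (t : ℝ) : ℝ)) : ℂ)) P = 0 := by
    intro t ht
    have hJi : cm (Jm n Q) * (cm (Jm n Q))⁻¹ = 1 := Matrix.mul_nonsing_inv _ (Ne.isUnit (Pool.Agent.Y119.HY.Jc_det hQ))
    refine indep_group (K := ℂ) two_ne_zero (Pool.Agent.Y119.HY.Jc_skew hQ) hJi _ fun g y hg hd hy => ?_
    set φ : MvPolynomial (Fin (n * n)) (Polynomial ℚ) →+* ℂ :=
      MvPolynomial.eval₂Hom (evq (((1 / (t : ℝ) : ℝ)) : ℂ)) (fun j => g (ix n j).1 (ix n j).2) with hφ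
    have hG : (GX n).map φ = g := by
      ext1 i j
      show MvPolynomial.eval₂ _ _ (MvPolynomial.X ((ix n).symm (i, j))) = _
      rw [MvPolynomial.eval₂_X, Equiv.apply_symm_apply]
    have hJ : (JX n Q).map φ = cm (Jm n Q) := by
      ext1 i j
      show MvPolynomial.eval₂ _ _ (MvPolynomial.C (Polynomial.C (Jm n Q i j))) = _
      rw [MvPolynomial.eval₂_C, Pool.Agent.Y119.HY.cm_apply]
      unfold evq
      show Polynomial.aeval _ (Polynomial.C (Jm n Q i j)) = _
      rw [Polynomial.aeval_C]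
      rfl
    have h1 := Rh_eval (Q := Q) φ P (y := y) (fun p => by rw [hG, hJ]; exact hy p)
    have h2 : φ (Rh n Q P) = 0 := rel_group hQ hR ht hg
    have h3 : φ.comp MvPolynomial.C = evq (((1 / (t : ℝ) : ℝ)) : ℂ) := by
      refine RingHom.ext fun p => ?_
      exact MvPolynomial.eval₂_C _ _ _
    rw [h2, hG, h3] at h1
    rw [MvPolynomial.eval_map]
    exact (mul_eq_zero.1 h1.symm).resolve_left (pow_ne_zero _ hd)
  -- the coefficients
  ext1 s
  rw [MvPolynomial.coeff_zero]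
  set p := MvPolynomial.coeff s P with hp
  have h1 : ∀ t : ℕ, 2 ≤ t → Polynomial.aeval ((((1 / (t : ℝ) : ℝ)) : ℂ)) p = 0 := by
    intro t ht
    have h2 := congrArg (MvPolynomial.coeff s) (hz t ht)
    rw [MvPolynomial.coeff_map, MvPolynomial.coeff_zero] at h2
    exact h2
  have h2 : p.map (algebraMap ℚ ℂ) = 0 := by
    refine Polynomial.eq_zero_of_infinite_isRoot _ ?_
    have hinj : Function.Injective fun t : ℕ => ((((1 / ((t + 2 : ℕ) : ℝ) : ℝ)) : ℂ)) := by
      intro a b hab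
      have h3 : (1 / ((a + 2 : ℕ) : ℝ) : ℝ) = 1 / ((b + 2 : ℕ) : ℝ) := Complex.ofReal_injective hab
      have h4 : ((a + 2 : ℕ) : ℝ) ≠ 0 := by positivity
      have h5 : ((b + 2 : ℕ) : ℝ) ≠ 0 := by positivity
      rw [div_eq_div_iff h4 h5, one_mul, one_mul] at h3
      have h6 : b + 2 = a + 2 := by exact_mod_cast h3
      omega
    refine (Set.infinite_range_of_injective hinj).mono ?_
    rintro _ ⟨t, rfl⟩
    show Polynomial.IsRoot _ _
    rw [Polynomial.IsRoot, Polynomial.eval_map_algebraMap]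
    exact h1 (t + 2) (by omega)
  exact (Polynomial.map_eq_zero_iff (algebraMap ℚ ℂ).injective).1 h2

theorem card_Sy (n : ℕ) : 2 * Fintype.card (Sy n) = n * (n + 1) := by
  have h1 : Fintype.card (Sy n) = ∑ j : Fin n, ((j : ℕ) + 1) := by
    rw [Fintype.card_subtype, Finset.card_eq_sum_ones, Finset.sum_filter, Fintype.sum_prod_type_right]
    refine Finset.sum_congr rfl fun j _ => ?_
    rw [← Finset.sum_filter, ← Finset.card_eq_sum_ones]
    have : (Finset.univ.filter fun i : Fin n => i ≤ j) = Finset.Iic j := by ext; simp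
    simp only
    rw [this, Fin.card_Iic]
  rw [h1, Fin.sum_univ_eq_sum_range (fun j => j + 1), Finset.sum_add_distrib]
  have h2 := Finset.sum_range_id_mul_two n
  rw [Finset.sum_const, Finset.card_range, smul_eq_mul, mul_one]
  rcases n with _ | n
  · simp
  · simp only [Nat.add_sub_cancel] at h2
    nlinarith

/-- the coordinates are algebraic over the entries -/
theorem yH_alg (p : Sy n) : IsAlgebraic (Algebra.adjoin (Polynomial ℚ) (Set.range fun q : Fin n × Fin n => Hp n Q q.1 q.2))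
    (yH n Q p) := by
  set B := Algebra.adjoin (Polynomial ℚ) (Set.range fun q : Fin n × Fin n => Hp n Q q.1 q.2) with hB
  set G : Matrix (Fin n) (Fin n) B := Matrix.of fun i j => ⟨Hp n Q i j, Algebra.subset_adjoin ⟨(i, j), rfl⟩⟩ with hG
  set J : Matrix (Fin n) (Fin n) B := Matrix.of fun i j => algebraMap (Polynomial ℚ) B (Polynomial.C (Jm n Q i j)) with hJ
  set φ : B →+* ℚ⟦X⟧ := B.val.toRingHom with hφ
  have hGm : G.map φ = Hp n Q := by
    ext1 i j
    rfl
  have hJm : J.map φ = km (Jm n Q) := by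
    ext1 i j
    show ((algebraMap (Polynomial ℚ) B (Polynomial.C (Jm n Q i j)) : B) : ℚ⟦X⟧) = C (Jm n Q i j)
    have h1 : ((algebraMap (Polynomial ℚ) B (Polynomial.C (Jm n Q i j)) : B) : ℚ⟦X⟧) =
      algebraMap (Polynomial ℚ) ℚ⟦X⟧ (Polynomial.C (Jm n Q i j)) := rfl
    rw [h1, PowerSeries.algebraMap_apply']
    simp
  have h1 : φ (cd G) = dH n Q := by
    rw [cd_map, hGm]
    rfl
  have h2 : φ (cn J G p) = dH n Q * yH n Q p := by
    rw [cn_map, hGm, hJm]
    exact yH_eq p
  refine ⟨Polynomial.C (cd G) * Polynomial.X - Polynomial.C (cn J G p), ?_, ?_⟩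
  · intro h0
    have h3 := congrArg (Polynomial.coeff · 1) h0
    simp only [Polynomial.coeff_sub, Polynomial.coeff_C_mul, Polynomial.coeff_X_one, mul_one, Polynomial.coeff_C_succ,
      sub_zero, Polynomial.coeff_zero] at h3
    rw [h3, map_zero] at h1
    apply dH_ne (n := n) (Q := Q)
    rw [← h1, map_zero]
  · rw [map_sub, map_mul, Polynomial.aeval_C, Polynomial.aeval_C, Polynomial.aeval_X]
    show φ (cd G) * yH n Q p - φ (cn J G p) = 0
    rw [h1, h2, sub_self]

/-- **independent entries** -/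
theorem exists_indep (hQ : QD n Q) {d : ℕ} (hd : 2 * d = n * (n + 1)) : ∃ T : Fin d → Fin n × Fin n,
    AlgebraicIndependent (Polynomial ℚ) (fun i => Hp n Q (T i).1 (T i).2) := by
  classical
  have hinj : Function.Injective (algebraMap (Polynomial ℚ) ℚ⟦X⟧) := by
    intro p q hpq
    have h1 : ((p : Polynomial ℚ) : ℚ⟦X⟧) = (q : ℚ⟦X⟧) := by
      simpa [PowerSeries.algebraMap_apply'] using hpq
    exact_mod_cast h1
  have : FaithfulSMul (Polynomial ℚ) ℚ⟦X⟧ := (faithfulSMul_iff_algebraMap_injective _ _).2 hinj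
  set M := AlgebraicIndependent.matroid (Polynomial ℚ) ℚ⟦X⟧ with hM
  set S : Set ℚ⟦X⟧ := Set.range fun q : Fin n × Fin n => Hp n Q q.1 q.2 with hS
  have hy := yH_indep hQ
  have hind : M.Indep (Set.range (yH n Q)) := hy.to_subtype_range
  have hcl : Set.range (yH n Q) ⊆ M.closure S := by
    rw [hM, AlgebraicIndependent.matroid_closure_eq]
    rintro _ ⟨p, rfl⟩
    exact yH_alg p
  obtain ⟨B, hB⟩ := M.exists_isBasis S
  have h1 : (Set.range (yH n Q)).encard ≤ B.encard := by
    rw [← hind.eRk_eq_encard, hB.encard_eq_eRk, ← M.eRk_closure_eq S]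
    exact M.eRk_mono hcl
  have h2 : (Set.range (yH n Q)).encard = d := by
    rw [← Set.image_univ, hy.injective.injOn.encard_image, Set.encard_univ]
    have h3 := card_Sy n
    have h4 : Fintype.card (Sy n) = d := by omega
    rw [ENat.card_eq_coe_fintype_card, h4]
  rw [h2] at h1
  obtain ⟨B', hB', hB'c⟩ := Set.exists_subset_encard_eq h1
  have hfin : B'.Finite := Set.finite_of_encard_eq_coe hB'c
  have : Fintype B' := hfin.fintype
  have hcard : Fintype.card B' = d := by
    have h5 : (B'.encard : ℕ∞) = Fintype.card B' := by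
      rw [Set.encard, ENat.card_eq_coe_fintype_card]
    rw [hB'c] at h5
    exact_mod_cast h5.symm
  let e : Fin d ≃ B' := (Fintype.equivFinOfCardEq hcard).symm
  have hmem : ∀ b : B', ∃ q : Fin n × Fin n, Hp n Q q.1 q.2 = (b : ℚ⟦X⟧) := fun b => hB.subset (hB' b.2)
  choose T hT using hmem
  refine ⟨fun i => T (e i), ?_⟩
  have h6 : M.Indep B' := hB.indep.subset hB'
  have h7 : AlgebraicIndependent (Polynomial ℚ) (fun b : B' => (b : ℚ⟦X⟧)) := h6
  have h8 := h7.comp e e.injective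
  convert h8 using 1
  funext i
  exact hT (e i)

end Pool.Agent.R739.HA
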